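import Pool.Agent.N93.Crown

/-!
# Lovász–Saks–Schrijver ideals of bipartite graphs at `d = m - 1`

For `m ≥ 5` a graph which contains no `K_{a,b}` with `a + b ≥ m` need not have a prime ideal
`L_G(m - 1)`: take the complete bipartite graph on `(m - 1) + (m - 1)` vertices minus a perfect
matching. The variety is that of the pairs of square matrices `A`, `B` of size `m - 1` with `A B`
diagonal; the pairs with `rank A ≤ 2`, `rank B ≤ m - 3`, `A B = 0` are not in the closure of the
pairs with `det A ≠ 0`.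
-/

set_option autoImplicit false

namespace Pool.Agent.Results.MP_024e1e_ag.CrownGraph

open MvPolynomial

universe u

/-- The Lovász–Saks–Schrijver ideal `L_G(d)`, generated by `∑_j y_{i,j} y_{l,j}` for the edges
`{i, l}` of `G`. -/
noncomputable def lss (k : Type*) [Field k] {V : Type*} (d : ℕ) (G : SimpleGraph V) :
    Ideal (MvPolynomial (V × Fin d) k) :=
  Ideal.span {f | ∃ i l, G.Adj i l ∧ f = ∑ j : Fin d, X (i, j) * X (l, j)}

/-- the pairs (left vertex, right vertex) which are edges of the graph -/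
def rel (m n : ℕ) (i : Fin m) (j : Fin n) : Prop :=
  ((i : ℕ) ≠ j ∧ (i : ℕ) < m - 1 ∧ (j : ℕ) < m - 1) ∨ ((i : ℕ) = m - 1 ∧ (j : ℕ) = m - 1)

/-- `K_{m-1,m-1}` minus a perfect matching, and one more edge -/
def graph (m n : ℕ) : SimpleGraph (Fin m ⊕ Fin n) where
  Adj x y := (∃ i j, rel m n i j ∧ x = Sum.inl i ∧ y = Sum.inr j) ∨
    (∃ i j, rel m n i j ∧ x = Sum.inr j ∧ y = Sum.inl i)
  symm := ⟨by
    rintro x y (⟨i, j, h, rfl, rfl⟩ | ⟨i, j, h, rfl, rfl⟩)
    · exact Or.inr ⟨i, j, h, rfl, rfl⟩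
    · exact Or.inl ⟨i, j, h, rfl, rfl⟩⟩
  loopless := ⟨by
    rintro x (⟨i, j, h, h1, h2⟩ | ⟨i, j, h, h1, h2⟩)
    · rw [h1] at h2; exact absurd h2 (by simp)
    · rw [h1] at h2; exact absurd h2 (by simp)⟩

lemma adj_lr {m n : ℕ} {i : Fin m} {j : Fin n} :
    (graph m n).Adj (Sum.inl i) (Sum.inr j) ↔ rel m n i j := by
  constructor
  · rintro (⟨i', j', h, h1, h2⟩ | ⟨i', j', h, h1, h2⟩)
    · rw [Sum.inl.injEq] at h1; rw [Sum.inr.injEq] at h2; rw [h1, h2]; exact h
    · exact absurd h1 (by simp)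
  · intro h
    exact Or.inl ⟨i, j, h, rfl, rfl⟩

lemma not_adj_ll {m n : ℕ} {i i' : Fin m} : ¬ (graph m n).Adj (Sum.inl i) (Sum.inl i') := by
  rintro (⟨_, _, _, h1, h2⟩ | ⟨_, _, _, h1, h2⟩)
  · exact absurd h2 (by simp)
  · exact absurd h1 (by simp)

lemma not_adj_rr {m n : ℕ} {j j' : Fin n} : ¬ (graph m n).Adj (Sum.inr j) (Sum.inr j') := by
  rintro (⟨_, _, _, h1, h2⟩ | ⟨_, _, _, h1, h2⟩)
  · exact absurd h1 (by simp)
  · exact absurd h2 (by simp)

/-- the combinatorial part: two disjoint families of vertices, completely joined -/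
lemma card_le {m n a b : ℕ} (hm : 2 < m) (ha : 1 ≤ a) (hb : 1 ≤ b) (s : Fin a → Fin m)
    (t : Fin b → Fin n) (hs : Function.Injective s) (ht : Function.Injective t)
    (h : ∀ i j, rel m n (s i) (t j)) : a + b < m := by
  classical
  by_cases h0 : (s ⟨0, ha⟩ : ℕ) = m - 1
  · -- the additional edge
    have h1 : ∀ j, (t j : ℕ) = m - 1 := by
      intro j
      rcases h ⟨0, ha⟩ j with h2 | h2
      · omega
      · exact h2.2
    have h2 : ∀ i, (s i : ℕ) = m - 1 := by
      intro i
      rcases h i ⟨0, hb⟩ with h3 | h3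
      · have := h1 ⟨0, hb⟩; omega
      · exact h3.1
    have ha1 : a ≤ 1 := by
      by_contra hcon
      have := hs (Fin.ext (by rw [h2, h2]) : s ⟨0, ha⟩ = s ⟨1, by omega⟩)
      simp at this
    have hb1 : b ≤ 1 := by
      by_contra hcon
      have := ht (Fin.ext (by rw [h1, h1]) : t ⟨0, hb⟩ = t ⟨1, by omega⟩)
      simp at this
    omega
  · have h1 : ∀ j, (t j : ℕ) < m - 1 := by
      intro j
      rcases h ⟨0, ha⟩ j with h2 | h2
      · exact h2.2.2
      · exact absurd h2.1 h0
    have h2 : ∀ i, (s i : ℕ) < m - 1 := by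
      intro i
      rcases h i ⟨0, hb⟩ with h3 | h3
      · exact h3.2.1
      · have := h1 ⟨0, hb⟩; omega
    have h3 : ∀ i j, (s i : ℕ) ≠ t j := by
      intro i j
      rcases h i j with h4 | h4
      · exact h4.1
      · have := h1 j; omega
    have h4 : Fintype.card (Fin a ⊕ Fin b) ≤ Fintype.card (Fin (m - 1)) := by
      apply Fintype.card_le_of_injective (fun x : Fin a ⊕ Fin b => (Sum.elim
        (fun i => (⟨s i, h2 i⟩ : Fin (m - 1))) (fun j => (⟨t j, h1 j⟩ : Fin (m - 1))) x))
      rintro (i | i) (j | j) hij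
      · simp only [Sum.elim_inl, Fin.mk.injEq] at hij
        rw [hs (Fin.ext hij)]
      · simp only [Sum.elim_inl, Sum.elim_inr, Fin.mk.injEq] at hij
        exact absurd hij (h3 i j)
      · simp only [Sum.elim_inl, Sum.elim_inr, Fin.mk.injEq] at hij
        exact absurd hij.symm (h3 j i)
      · simp only [Sum.elim_inr, Fin.mk.injEq] at hij
        rw [ht (Fin.ext hij)]
    rw [Fintype.card_sum, Fintype.card_fin, Fintype.card_fin, Fintype.card_fin] at h4
    omega

lemma not_contained {m n a b : ℕ} (hm : 2 < m) (ha : 1 ≤ a) (hb : 1 ≤ b) (hab : m ≤ a + b) :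
    ¬ (completeBipartiteGraph (Fin a) (Fin b)).IsContained (graph m n) := by
  classical
  rintro ⟨f⟩
  have hadj : ∀ i j, (graph m n).Adj (f (Sum.inl i)) (f (Sum.inr j)) := by
    intro i j
    apply f.toHom.map_rel
    simp [completeBipartiteGraph]
  have hinj : Function.Injective f := f.injective
  rcases hx : f (Sum.inl ⟨0, ha⟩) with x | x
  · have h1 : ∀ j, ∃ y, f (Sum.inr j) = Sum.inr y := by
      intro j
      rcases hy : f (Sum.inr j) with y | y
      · have := hadj ⟨0, ha⟩ j
        rw [hx, hy] at this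
        exact absurd this not_adj_ll
      · exact ⟨y, rfl⟩
    choose t ht using h1
    have h2 : ∀ i, ∃ y, f (Sum.inl i) = Sum.inl y := by
      intro i
      rcases hy : f (Sum.inl i) with y | y
      · exact ⟨y, rfl⟩
      · have := hadj i ⟨0, hb⟩
        rw [ht, hy] at this
        exact absurd this not_adj_rr
    choose s hs using h2
    have := card_le (a := a) (b := b) hm ha hb s t
      (fun i i' h => by
        have := hinj ((hs i).trans ((congrArg Sum.inl h).trans (hs i').symm))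
        exact Sum.inl_injective this)
      (fun i i' h => by
        have := hinj ((ht i).trans ((congrArg Sum.inr h).trans (ht i').symm))
        exact Sum.inr_injective this)
      (fun i j => by
        have := hadj i j
        rw [hs, ht, adj_lr] at this
        exact this)
    omega
  · have h1 : ∀ j, ∃ y, f (Sum.inr j) = Sum.inl y := by
      intro j
      rcases hy : f (Sum.inr j) with y | y
      · exact ⟨y, rfl⟩
      · have := hadj ⟨0, ha⟩ j
        rw [hx, hy] at this
        exact absurd this not_adj_rr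
    choose t ht using h1
    have h2 : ∀ i, ∃ y, f (Sum.inl i) = Sum.inr y := by
      intro i
      rcases hy : f (Sum.inl i) with y | y
      · have := hadj i ⟨0, hb⟩
        rw [ht, hy] at this
        exact absurd this not_adj_ll
      · exact ⟨y, rfl⟩
    choose s hs using h2
    have := card_le (a := b) (b := a) hm hb ha t s
      (fun i i' h => by
        have := hinj ((ht i).trans ((congrArg Sum.inl h).trans (ht i').symm))
        exact Sum.inr_injective this)
      (fun i i' h => by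
        have := hinj ((hs i).trans ((congrArg Sum.inr h).trans (hs i').symm))
        exact Sum.inl_injective this)
      (fun i j => by
        have := (hadj j i).symm
        rw [hs, ht, adj_lr] at this
        exact this)
    omega

section algebra

open Pool.Agent.N93.Crown

variable {K : Type u} [Field K] {k n : ℕ}

/-- evaluation at the vectors given by the rows of `A` and the columns of `B` -/
noncomputable def ev (n : ℕ) (A B : Matrix (Fin (k + 4)) (Fin (k + 4)) K) :
    MvPolynomial ((Fin (k + 5) ⊕ Fin n) × Fin (k + 4)) K →+* K :=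
  eval fun x => Sum.elim (fun i : Fin (k + 5) => if h : (i : ℕ) < k + 4 then A ⟨i, h⟩ x.2 else 0)
    (fun j : Fin n => if h : (j : ℕ) < k + 4 then B x.2 ⟨j, h⟩ else 0) x.1

lemma lss_le_ker (A B : Matrix (Fin (k + 4)) (Fin (k + 4)) K)
    (hAB : ∀ i j, i ≠ j → (A * B) i j = 0) :
    lss K (k + 4) (graph (k + 5) n) ≤ RingHom.ker (ev n A B) := by
  have key : ∀ (i : Fin (k + 5)) (j : Fin n), rel (k + 5) n i j →
      ∑ l : Fin (k + 4), ev n A B (X (Sum.inl i, l)) * ev n A B (X (Sum.inr j, l)) = 0 := by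
    intro i j hij
    simp only [ev, eval_X, Sum.elim_inl, Sum.elim_inr]
    rcases hij with ⟨h1, h2, h3⟩ | ⟨h1, h2⟩
    · have h2' : (i : ℕ) < k + 4 := by omega
      have h3' : (j : ℕ) < k + 4 := by omega
      have h4 := hAB ⟨i, h2'⟩ ⟨j, h3'⟩ (by
        intro h
        rw [Fin.mk.injEq] at h
        exact h1 h)
      rw [Matrix.mul_apply] at h4
      simpa [h2', h3'] using h4
    · have h2' : ¬ (i : ℕ) < k + 4 := by omega
      simp [h2']
  unfold lss
  rw [Ideal.span_le]
  rintro f ⟨x, y, hxy, rfl⟩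
  rw [SetLike.mem_coe, RingHom.mem_ker, map_sum]
  simp only [map_mul]
  rcases hxy with ⟨i, j, h, rfl, rfl⟩ | ⟨i, j, h, rfl, rfl⟩
  · exact key i j h
  · rw [← key i j h]
    exact Finset.sum_congr rfl fun l _ => mul_comm _ _

theorem not_prime (hn : k + 5 ≤ n) : ¬ (lss K (k + 4) (graph (k + 5) n)).IsPrime := by
  intro hP
  set Q := lss K (k + 4) (graph (k + 5) n) with hQ
  let A : Matrix (Fin (k + 4)) (Fin (k + 4)) (MvPolynomial ((Fin (k + 5) ⊕ Fin n) × Fin (k + 4)) K)
    := fun i l => X (Sum.inl ⟨i, by omega⟩, l)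
  let B : Matrix (Fin (k + 4)) (Fin (k + 4)) (MvPolynomial ((Fin (k + 5) ⊕ Fin n) × Fin (k + 4)) K)
    := fun l j => X (Sum.inr ⟨j, by omega⟩, l)
  have hAB : ∀ i j, i ≠ j → (A * B) i j ∈ Q := by
    intro i j hij
    apply Ideal.subset_span
    refine ⟨Sum.inl ⟨i, by omega⟩, Sum.inr ⟨j, by omega⟩, adj_lr.2 (Or.inl ⟨?_, ?_, ?_⟩), ?_⟩
    · exact fun h => hij (Fin.ext h)
    · have := i.2; simp only [Nat.add_succ_sub_one]; omega
    · have := j.2; simp only [Nat.add_succ_sub_one]; omega
    · rw [Matrix.mul_apply]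
  have h1 : A.det ^ 2 * ff A B ∈ Q := by
    rw [← Ideal.Quotient.eq_zero_iff_mem, map_mul, map_pow, RingHom.map_det, map_ff]
    apply det_sq_mul_ff
    intro i j hij
    have h2 : (A.map (Ideal.Quotient.mk Q) * B.map (Ideal.Quotient.mk Q)) i j =
        Ideal.Quotient.mk Q ((A * B) i j) := by
      simp [Matrix.mul_apply]
    rw [RingHom.mapMatrix_apply, h2, Ideal.Quotient.eq_zero_iff_mem]
    exact hAB i j hij
  have hevA : ∀ A' B' : Matrix (Fin (k + 4)) (Fin (k + 4)) K, A.map (ev n A' B') = A' := by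
    intro A' B'
    ext i j
    change ev n A' B' (X (Sum.inl ⟨i, by omega⟩, j)) = A' i j
    simp [ev]
  have hevB : ∀ A' B' : Matrix (Fin (k + 4)) (Fin (k + 4)) K, B.map (ev n A' B') = B' := by
    intro A' B'
    ext i j
    change ev n A' B' (X (Sum.inr ⟨j, by omega⟩, i)) = B' i j
    simp [ev]
  rcases hP.mem_or_mem h1 with h2 | h2
  · have h3 := hP.mem_of_pow_mem 2 h2
    have h4 := lss_le_ker (K := K) (n := n) (1 : Matrix (Fin (k + 4)) (Fin (k + 4)) K) 0
      (by intro i j _; simp) h3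
    rw [RingHom.mem_ker, RingHom.map_det, RingHom.mapMatrix_apply, hevA, Matrix.det_one] at h4
    exact one_ne_zero h4
  · have h4 := lss_le_ker (K := K) (n := n) (A₀ K k) (B₀ K k)
      (by intro i j _; rw [A₀_mul_B₀]; rfl) h2
    rw [RingHom.mem_ker, map_ff, hevA, hevB, ff_point] at h4
    exact one_ne_zero h4

end algebra

/-- **Answer (no) to the question.** For all `5 ≤ m ≤ n` there is a subgraph `G` of `K_{m,n}` which
contains no `K_{a,b}` with `a, b ≥ 1` and `a + b ≥ m`, and such that `L_G(m - 1)` is not prime over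
any field. For `n = m` the graph has no isolated vertices. -/
theorem result (m n : ℕ) (hm : 5 ≤ m) (hmn : m ≤ n) :
    ∃ G : SimpleGraph (Fin m ⊕ Fin n), G ≤ completeBipartiteGraph (Fin m) (Fin n) ∧
      (∀ a b : ℕ, 1 ≤ a → 1 ≤ b → m ≤ a + b →
        ¬ (completeBipartiteGraph (Fin a) (Fin b)).IsContained G) ∧
      (n = m → ∀ v, ∃ w, G.Adj v w) ∧
      ∀ (k : Type u) [Field k], ¬ (lss k (m - 1) G).IsPrime := by
  refine ⟨graph m n, ?_, ?_, ?_, ?_⟩
  · rintro x y (⟨i, j, h, rfl, rfl⟩ | ⟨i, j, h, rfl, rfl⟩)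
    · simp [completeBipartiteGraph]
    · simp [completeBipartiteGraph]
  · intro a b ha hb hab
    exact not_contained (by omega) ha hb hab
  · rintro rfl (i | i)
    · rcases Nat.lt_or_ge (i : ℕ) (n - 1) with h | h
      · by_cases h0 : (i : ℕ) = 0
        · exact ⟨Sum.inr ⟨1, by omega⟩, adj_lr.2 (Or.inl ⟨by simp [h0], h, by simp; omega⟩)⟩
        · exact ⟨Sum.inr ⟨0, by omega⟩, adj_lr.2 (Or.inl ⟨h0, h, by simp; omega⟩)⟩
      · exact ⟨Sum.inr i, adj_lr.2 (Or.inr ⟨by omega, by omega⟩)⟩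
    · rcases Nat.lt_or_ge (i : ℕ) (n - 1) with h | h
      · by_cases h0 : (i : ℕ) = 0
        · exact ⟨Sum.inl ⟨1, by omega⟩, (adj_lr.2 (Or.inl ⟨by simp [h0], by simp; omega, h⟩)).symm⟩
        · exact ⟨Sum.inl ⟨0, by omega⟩,
            (adj_lr.2 (Or.inl ⟨fun h' => h0 h'.symm, by simp; omega, h⟩)).symm⟩
      · exact ⟨Sum.inl i, (adj_lr.2 (Or.inr ⟨by omega, by omega⟩)).symm⟩
  · intro K _
    obtain ⟨k, rfl⟩ : ∃ k, m = k + 5 := ⟨m - 5, by omega⟩
    exact not_prime hmn

end Pool.Agent.Results.MP_024e1e_ag.CrownGraph
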